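import Mathlib

open MeasureTheory Set Filter Topology
open scoped ENNReal

namespace Pool.Agent.Results.MP_acc68d_an.TwoSidedCones

/-- `ℝ^n` with its Euclidean norm. -/
abbrev E (n : ℕ) : Type := EuclideanSpace ℝ (Fin n)

/-- `H(x, θ, β) = {y : (y - x) · θ > β |y - x|}`. -/
def H {n : ℕ} (x θ : E n) (β : ℝ) : Set (E n) := {y | β * ‖y - x‖ < inner ℝ (y - x) θ}

/-- The truncated one-sided cone `X⁺(x, r, θ, α) = B(x, r) ∩ H(x, θ, (1 - α²)^{1/2})`. -/
def X {n : ℕ} (x : E n) (r : ℝ) (θ : E n) (α : ℝ) : Set (E n) :=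
  Metric.closedBall x r ∩ H x θ (Real.sqrt (1 - α ^ 2))

lemma cone_measurable {n : ℕ} (θ : E n) (β : ℝ) :
    MeasurableSet {p : E n × E n | p.2 ∈ H p.1 θ β} := by
  have h : MeasurableSet {p : E n × E n | β * ‖p.2 - p.1‖ < inner ℝ (p.2 - p.1) θ} :=
    measurableSet_lt (by fun_prop) (by fun_prop)
  exact h

lemma H_measurable {n : ℕ} (x θ : E n) (β : ℝ) : MeasurableSet (H x θ β) := by
  unfold H
  exact measurableSet_lt (by fun_prop) (by fun_prop)

lemma H_symm {n : ℕ} {y z θ : E n} {β : ℝ} (h : z ∈ H y θ β) : y ∈ H z (-θ) β := by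
  unfold H at h ⊢
  rw [Set.mem_ofPred_eq] at h ⊢
  rw [inner_neg_right, ← inner_neg_left, neg_sub, norm_sub_rev]
  exact h

/-! ### The counting lemma -/

/-- A class of points all of which see little mass in prescribed directions has small mass. -/
lemma class_small {n : ℕ} {β : ℝ} (μ : Measure (E n)) [IsFiniteMeasure μ]
    (hna : ∀ x, μ {x} = 0)
    (Θ T : Finset (E n)) (hT : T ⊆ Θ) (hΘ : ∀ u : E n, u ≠ 0 → ∃ θ ∈ Θ, β * ‖u‖ < inner ℝ u θ)
    (B C : Set (E n)) (hC : MeasurableSet C) (hCB : C ⊆ B) (e : ℝ≥0∞)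
    (h1 : ∀ y ∈ C, ∀ θ ∈ T, μ (B ∩ H y θ β) ≤ e)
    (h2 : ∀ y ∈ C, ∀ θ ∈ Θ, θ ∉ T → μ (B ∩ H y (-θ) β) ≤ e) :
    μ C ≤ Θ.card * e := by
  classical
  by_cases h0 : μ C = 0
  · rw [h0]; exact zero_le
  have hfin : μ C ≠ ⊤ := measure_ne_top μ C
  -- the relation sets
  let S : E n → Set (E n × E n) := fun θ => {p | p.1 ∈ C ∧ p.2 ∈ C ∧ p.1 ∈ H p.2 (-θ) β}
  have hS : ∀ θ, MeasurableSet (S θ) := by
    intro θ
    have h3 : MeasurableSet {p : E n × E n | p.1 ∈ H p.2 (-θ) β} :=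
      measurable_swap (cone_measurable (-θ) β)
    exact (measurable_fst hC).inter ((measurable_snd hC).inter h3)
  have hpoint : ∀ y ∈ C, μ C ≤ T.card * e + ∑ θ ∈ Θ \ T, μ (Prod.mk y ⁻¹' S θ) := by
    intro y hy
    have hsub : C ⊆ {y} ∪ ((⋃ θ ∈ T, B ∩ H y θ β) ∪ ⋃ θ ∈ Θ \ T, Prod.mk y ⁻¹' S θ) := by
      intro z hz
      by_cases hzy : z = y
      · left; exact hzy
      right
      obtain ⟨θ, hθ, hin⟩ := hΘ (z - y) (sub_ne_zero.2 hzy)
      have hzH : z ∈ H y θ β := hin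
      by_cases hθT : θ ∈ T
      · left
        exact mem_iUnion₂.2 ⟨θ, hθT, hCB hz, hzH⟩
      · right
        exact mem_iUnion₂.2 ⟨θ, Finset.mem_sdiff.2 ⟨hθ, hθT⟩, hy, hz, H_symm hzH⟩
    calc μ C ≤ μ {y} + (μ (⋃ θ ∈ T, B ∩ H y θ β) + μ (⋃ θ ∈ Θ \ T, Prod.mk y ⁻¹' S θ)) :=
          (measure_mono hsub).trans ((measure_union_le _ _).trans
            (add_le_add le_rfl (measure_union_le _ _)))
      _ ≤ 0 + (∑ θ ∈ T, μ (B ∩ H y θ β) + ∑ θ ∈ Θ \ T, μ (Prod.mk y ⁻¹' S θ)) := by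
          gcongr
          · exact (hna y).le
          · exact measure_biUnion_finset_le _ _
          · exact measure_biUnion_finset_le _ _
      _ ≤ T.card * e + ∑ θ ∈ Θ \ T, μ (Prod.mk y ⁻¹' S θ) := by
          rw [zero_add]
          gcongr
          calc ∑ θ ∈ T, μ (B ∩ H y θ β) ≤ ∑ _θ ∈ T, e := Finset.sum_le_sum fun θ hθ => h1 y hy θ hθ
            _ = T.card * e := by rw [Finset.sum_const, nsmul_eq_mul]
  have hSint : ∀ θ ∈ Θ \ T, ∫⁻ y in C, μ (Prod.mk y ⁻¹' S θ) ∂μ ≤ e * μ C := by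
    intro θ hθ
    rw [Finset.mem_sdiff] at hθ
    calc ∫⁻ y in C, μ (Prod.mk y ⁻¹' S θ) ∂μ ≤ ∫⁻ y, μ (Prod.mk y ⁻¹' S θ) ∂μ :=
          setLIntegral_le_lintegral _ _
      _ = (μ.prod μ) (S θ) := (Measure.prod_apply (hS θ)).symm
      _ = ∫⁻ z, μ ((fun y => (y, z)) ⁻¹' S θ) ∂μ := Measure.prod_apply_symm (hS θ)
      _ ≤ ∫⁻ z, C.indicator (fun _ => e) z ∂μ := by
          refine lintegral_mono fun z => ?_
          by_cases hz : z ∈ C
          · rw [indicator_of_mem hz]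
            refine le_trans (measure_mono ?_) (h2 z hz θ hθ.1 hθ.2)
            rintro y ⟨hy, _, hyH⟩
            exact ⟨hCB hy, hyH⟩
          · rw [indicator_of_notMem hz]
            have : (fun y => (y, z)) ⁻¹' S θ = ∅ := by
              ext y
              simp only [S, mem_preimage, Set.mem_ofPred_eq, mem_empty_iff_false, iff_false]
              exact fun h => hz h.2.1
            rw [this, measure_empty]
      _ = e * μ C := by rw [lintegral_indicator hC, setLIntegral_const]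
  have hmeas : ∀ θ, Measurable fun y => μ (Prod.mk y ⁻¹' S θ) := fun θ =>
    measurable_measure_prodMk_left (hS θ)
  have hsq : μ C * μ C ≤ (Θ.card * e) * μ C := by
    calc μ C * μ C = ∫⁻ _y in C, μ C ∂μ := by rw [setLIntegral_const]
      _ ≤ ∫⁻ y in C, (T.card * e + ∑ θ ∈ Θ \ T, μ (Prod.mk y ⁻¹' S θ)) ∂μ :=
          setLIntegral_mono' hC hpoint
      _ = T.card * e * μ C + ∑ θ ∈ Θ \ T, ∫⁻ y in C, μ (Prod.mk y ⁻¹' S θ) ∂μ := by
          rw [lintegral_add_left measurable_const, setLIntegral_const,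
            lintegral_finsetSum _ fun θ _ => hmeas θ]
      _ ≤ T.card * e * μ C + ∑ _θ ∈ Θ \ T, e * μ C := by
          gcongr with θ hθ
          exact hSint θ hθ
      _ = (Θ.card * e) * μ C := by
          rw [Finset.sum_const, nsmul_eq_mul]
          have h3 : (Θ.card : ℝ≥0∞) = T.card + (Θ \ T).card := by
            rw [← Nat.cast_add, add_comm, Finset.card_sdiff_add_card_eq_card hT]
          rw [h3]
          ring
  exact (ENNReal.mul_le_mul_iff_left h0 hfin).1 hsq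

/-- If all points of `B ∩ s` see, for each direction, little mass on one of the two sides, then
`B ∩ s` has small mass. -/
lemma ball_small {n : ℕ} {β : ℝ} (μ : Measure (E n)) [IsFiniteMeasure μ]
    (hna : ∀ x, μ {x} = 0)
    (Θ : Finset (E n)) (hΘ : ∀ u : E n, u ≠ 0 → ∃ θ ∈ Θ, β * ‖u‖ < inner ℝ u θ)
    (B s : Set (E n)) (hB : MeasurableSet B) (e : ℝ≥0∞)
    (h : ∀ y ∈ B ∩ s, ∀ θ ∈ Θ, min (μ (B ∩ H y θ β)) (μ (B ∩ H y (-θ) β)) ≤ e) :
    μ (B ∩ s) ≤ 2 ^ Θ.card * (Θ.card * e) := by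
  classical
  let C : Finset (E n) → Set (E n) := fun T =>
    B ∩ ((⋂ θ ∈ T, {y | μ (B ∩ H y θ β) ≤ e}) ∩ ⋂ θ ∈ Θ \ T, {y | μ (B ∩ H y (-θ) β) ≤ e})
  have hm : ∀ θ, MeasurableSet {y | μ (B ∩ H y θ β) ≤ e} := by
    intro θ
    have h3 : MeasurableSet {p : E n × E n | p.2 ∈ B ∧ p.2 ∈ H p.1 θ β} :=
      (measurable_snd hB).inter (cone_measurable θ β)
    exact measurableSet_le (measurable_measure_prodMk_left (ν := μ) h3) measurable_const
  have hCm : ∀ T, MeasurableSet (C T) := fun T =>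
    hB.inter ((Finset.measurableSet_biInter _ fun θ _ => hm θ).inter
      (Finset.measurableSet_biInter _ fun θ _ => hm (-θ)))
  have hsub : B ∩ s ⊆ ⋃ T ∈ Θ.powerset, C T := by
    intro y hy
    refine mem_iUnion₂.2 ⟨Θ.filter fun θ => μ (B ∩ H y θ β) ≤ e,
      Finset.mem_powerset.2 (Finset.filter_subset _ _), hy.1, ?_, ?_⟩
    · refine mem_iInter₂.2 fun θ hθ => (Finset.mem_filter.1 hθ).2
    · refine mem_iInter₂.2 fun θ hθ => ?_
      rw [Finset.mem_sdiff, Finset.mem_filter, not_and] at hθ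
      rcases min_le_iff.1 (h y hy θ hθ.1) with h4 | h4
      · exact absurd h4 (hθ.2 hθ.1)
      · exact h4
  calc μ (B ∩ s) ≤ ∑ T ∈ Θ.powerset, μ (C T) :=
        (measure_mono hsub).trans (measure_biUnion_finset_le _ _)
    _ ≤ ∑ _T ∈ Θ.powerset, (Θ.card * e) := by
        refine Finset.sum_le_sum fun T hT => ?_
        rw [Finset.mem_powerset] at hT
        refine class_small μ hna Θ T hT hΘ B (C T) (hCm T) inter_subset_left e ?_ ?_
        · intro y hy θ hθ
          exact mem_iInter₂.1 hy.2.1 θ hθ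
        · intro y hy θ hθ hθT
          exact mem_iInter₂.1 hy.2.2 θ (Finset.mem_sdiff.2 ⟨hθ, hθT⟩)
    _ = 2 ^ Θ.card * (Θ.card * e) := by
        rw [Finset.sum_const, Finset.card_powerset, nsmul_eq_mul]
        push_cast
        rfl

/-! ### Doubling scales -/

lemma doubling {n : ℕ} (μ : Measure (E n)) [IsFiniteMeasure μ] :
    ∀ᵐ x ∂μ, ∀ δ : ℝ, 0 < δ → ∃ r : ℝ, 0 < r ∧ r < δ ∧
      μ (Metric.closedBall x (3 * r)) ≤ ENNReal.ofReal (2 * 3 ^ n) * μ (Metric.closedBall x r) := by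
  filter_upwards [Besicovitch.ae_tendsto_rnDeriv (volume : Measure (E n)) μ,
    Measure.rnDeriv_lt_top (volume : Measure (E n)) μ] with x hx hfin δ hδ
  by_contra hcon
  push Not at hcon
  set C : ℝ := 2 * 3 ^ n with hC
  have hCpos : 0 < C := by positivity
  set r0 : ℝ := δ with hr0
  let ρ : ℕ → ℝ := fun k => r0 * (1 / 3) ^ (k + 1)
  have hρ0 : ∀ k, 0 < ρ k := fun k => by simp only [ρ]; positivity
  have hρlt : ∀ k, ρ k < δ := fun k => by
    simp only [ρ]
    have : (1 / 3 : ℝ) ^ (k + 1) < 1 := pow_lt_one₀ (by norm_num) (by norm_num) (by omega)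
    nlinarith
  have hstep : ∀ k, ENNReal.ofReal C * μ (Metric.closedBall x (ρ (k + 1))) ≤
      μ (Metric.closedBall x (ρ k)) := by
    intro k
    have h1 := (hcon (ρ (k + 1)) (hρ0 _) (hρlt _)).le
    have h2 : 3 * ρ (k + 1) = ρ k := by simp only [ρ]; ring
    rwa [h2] at h1
  have hall : ∀ k, ENNReal.ofReal (C ^ k) * μ (Metric.closedBall x (ρ k)) ≤ μ univ := by
    intro k
    induction k with
    | zero => simpa using measure_mono (subset_univ _)
    | succ k ih =>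
      refine le_trans ?_ ih
      rw [pow_succ, ENNReal.ofReal_mul (by positivity), mul_assoc]
      gcongr
      exact hstep k
  -- comparison with the volume
  set L := (volume : Measure (E n)).rnDeriv μ x with hL
  have hev : ∀ᶠ r in 𝓝[>] (0 : ℝ),
      volume (Metric.closedBall x r) / μ (Metric.closedBall x r) < L + 1 :=
    hx.eventually (gt_mem_nhds (ENNReal.lt_add_right hfin.ne one_ne_zero))
  have hρlim : Tendsto ρ atTop (𝓝[>] 0) := by
    rw [tendsto_nhdsWithin_iff]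
    refine ⟨?_, Eventually.of_forall hρ0⟩
    have h1 : Tendsto (fun k : ℕ => r0 * (1 / 3 : ℝ) ^ (k + 1)) atTop (𝓝 (r0 * 0)) :=
      ((tendsto_pow_atTop_nhds_zero_of_lt_one (by norm_num) (by norm_num)).comp
        (tendsto_add_atTop_nat 1)).const_mul _
    rw [mul_zero] at h1
    exact h1
  have hev2 := hρlim.eventually hev
  -- volume of the small balls
  have hvol : ∀ k, volume (Metric.closedBall x (ρ k)) =
      ENNReal.ofReal ((ρ k) ^ n) * volume (Metric.ball (0 : E n) 1) := by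
    intro k
    rw [Measure.addHaar_closedBall _ _ (hρ0 k).le, finrank_euclideanSpace, Fintype.card_fin]
  have hv0 : 0 < volume (Metric.ball (0 : E n) 1) := Metric.measure_ball_pos _ _ one_pos
  have hvt : volume (Metric.ball (0 : E n) 1) ≠ ⊤ := measure_ball_lt_top.ne
  set v := volume (Metric.ball (0 : E n) 1) with hv
  have hkey : ∀ᶠ k in atTop, ENNReal.ofReal (2 ^ k) * (ENNReal.ofReal ((r0 / 3) ^ n) * v) ≤
      (L + 1) * μ univ := by
    filter_upwards [hev2] with k hk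
    have h1 : volume (Metric.closedBall x (ρ k)) ≤ (L + 1) * μ (Metric.closedBall x (ρ k)) := by
      by_cases hz : μ (Metric.closedBall x (ρ k)) = 0
      · exfalso
        rw [hz, ENNReal.div_zero] at hk
        · exact not_top_lt hk
        · rw [hvol]
          exact mul_ne_zero (by
            rw [Ne, ENNReal.ofReal_eq_zero, not_le]
            have := hρ0 k
            positivity) hv0.ne'
      · exact (ENNReal.div_le_iff_le_mul (Or.inl hz) (Or.inl (measure_ne_top μ _))).1 hk.le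
    have h2 : (2 : ℝ) ^ k * (r0 / 3) ^ n = C ^ k * ρ k ^ n := by
      have h3 : ((3 : ℝ) ^ n) ^ k * ((1 / 3) ^ n) ^ k = 1 := by
        rw [← mul_pow, ← mul_pow]
        norm_num
      have h4 : C ^ k * ρ k ^ n =
          2 ^ k * (r0 / 3) ^ n * (((3 : ℝ) ^ n) ^ k * ((1 / 3) ^ n) ^ k) := by
        simp only [ρ, hC]
        ring
      rw [h4, h3, mul_one]
    calc ENNReal.ofReal (2 ^ k) * (ENNReal.ofReal ((r0 / 3) ^ n) * v)
        = ENNReal.ofReal (C ^ k) * (ENNReal.ofReal (ρ k ^ n) * v) := by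
          rw [← mul_assoc, ← ENNReal.ofReal_mul (by positivity), h2,
            ENNReal.ofReal_mul (by positivity), mul_assoc]
      _ = ENNReal.ofReal (C ^ k) * volume (Metric.closedBall x (ρ k)) := by rw [hvol]
      _ ≤ ENNReal.ofReal (C ^ k) * ((L + 1) * μ (Metric.closedBall x (ρ k))) := by gcongr
      _ = (L + 1) * (ENNReal.ofReal (C ^ k) * μ (Metric.closedBall x (ρ k))) := by ring
      _ ≤ (L + 1) * μ univ := by gcongr; exact hall k
  have ha0 : ENNReal.ofReal ((r0 / 3) ^ n) * v ≠ 0 :=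
    mul_ne_zero (by rw [Ne, ENNReal.ofReal_eq_zero, not_le]; positivity) hv0.ne'
  have hat : ENNReal.ofReal ((r0 / 3) ^ n) * v ≠ ⊤ := ENNReal.mul_ne_top ENNReal.ofReal_ne_top hvt
  have hRt : (L + 1) * μ univ ≠ ⊤ :=
    ENNReal.mul_ne_top (ENNReal.add_ne_top.2 ⟨hfin.ne, ENNReal.one_ne_top⟩) (measure_ne_top μ _)
  set a := ENNReal.ofReal ((r0 / 3) ^ n) * v with ha
  have hapos : 0 < a.toReal := ENNReal.toReal_pos ha0 hat
  have hgrow : Tendsto (fun k : ℕ => (2 : ℝ) ^ k * a.toReal) atTop atTop :=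
    (tendsto_pow_atTop_atTop_of_one_lt (by norm_num)).atTop_mul_const hapos
  obtain ⟨k, hk1, hk2⟩ := (hkey.and (hgrow.eventually_gt_atTop ((L + 1) * μ univ).toReal)).exists
  have h5 := ENNReal.toReal_mono hRt hk1
  rw [ENNReal.toReal_mul, ENNReal.toReal_ofReal (by positivity)] at h5
  linarith

/-! ### Finitely many directions -/

lemma directions (n : ℕ) {β : ℝ} (hβ : β < 1) : ∃ Θ : Finset (E n), (∀ θ ∈ Θ, ‖θ‖ = 1) ∧
    ∀ u : E n, u ≠ 0 → ∃ θ ∈ Θ, β * ‖u‖ < inner ℝ u θ := by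
  have hU : ∀ θ ∈ Metric.sphere (0 : E n) 1, {u : E n | β < inner ℝ u θ} ∈ 𝓝 θ := by
    intro θ hθ
    have h1 : ‖θ‖ = 1 := by simpa using hθ
    refine IsOpen.mem_nhds (isOpen_lt continuous_const (by fun_prop)) ?_
    rw [Set.mem_ofPred_eq, real_inner_self_eq_norm_sq, h1]
    linarith
  obtain ⟨t, ht, hcov⟩ := (isCompact_sphere (0 : E n) 1).elim_nhds_subcover _ hU
  refine ⟨t, fun θ hθ => by simpa using ht θ hθ, fun u hu => ?_⟩
  have hpos : 0 < ‖u‖ := norm_pos_iff.2 hu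
  have h2 : ‖u‖⁻¹ • u ∈ Metric.sphere (0 : E n) 1 := by
    rw [mem_sphere_zero_iff_norm, norm_smul, norm_inv, norm_norm, inv_mul_cancel₀ hpos.ne']
  obtain ⟨θ, hθ, h3⟩ := mem_iUnion₂.1 (hcov h2)
  refine ⟨θ, hθ, ?_⟩
  rw [Set.mem_ofPred_eq, inner_smul_left] at h3
  simp only [conj_trivial] at h3
  have h4 := mul_lt_mul_of_pos_left h3 hpos
  have h5 : ‖u‖ * (‖u‖⁻¹ * inner ℝ u θ) = inner ℝ u θ := by
    rw [← mul_assoc, mul_inv_cancel₀ hpos.ne', one_mul]
  rw [h5] at h4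
  linarith

/-- **Q1 holds.** For every `n` and `0 < α ≤ 1` there is `c > 0` such that for every finite
non-atomic Borel measure `μ` on `ℝ^n` and `μ`-almost every `x` there is a unit vector `θ` with
`limsup_{r ↓ 0} min{μ(X⁺(x,r,θ,α)), μ(X⁺(x,r,-θ,α))} / μ(B(x,r)) > c`. -/
theorem result (n : ℕ) (α : ℝ) (hα : 0 < α) (_hα1 : α ≤ 1) : ∃ c : ℝ, 0 < c ∧
    ∀ μ : Measure (E n), IsFiniteMeasure μ → (∀ x, μ {x} = 0) →
      ∀ᵐ x ∂μ, ∃ θ : E n, ‖θ‖ = 1 ∧ ENNReal.ofReal c <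
        limsup (fun r : ℝ => min (μ (X x r θ α)) (μ (X x r (-θ) α)) / μ (Metric.closedBall x r))
          (𝓝[>] (0 : ℝ)) := by
  set β : ℝ := Real.sqrt (1 - α ^ 2) with hβ
  have hβ1 : β < 1 := by
    rw [hβ, Real.sqrt_lt' one_pos]
    nlinarith
  obtain ⟨Θ, hΘ1, hΘ⟩ := directions n hβ1
  set N : ℝ := (Θ.card : ℝ) with hN
  have hN0 : 0 ≤ N := by positivity
  set C : ℝ := 2 * 3 ^ n with hC
  have hCpos : 0 < C := by positivity
  set c : ℝ := 1 / (8 * 2 ^ Θ.card * (N + 1) * C) with hc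
  have hcpos : 0 < c := by positivity
  refine ⟨c, hcpos, fun μ hμ hna => ?_⟩
  -- the bad sets
  let A : ℕ → Set (E n) := fun k => {x | ∀ θ ∈ Θ, ∀ r : ℝ, 0 < r → r < 1 / ((k : ℝ) + 1) →
    min (μ (X x r θ α)) (μ (X x r (-θ) α)) ≤ ENNReal.ofReal (2 * c) * μ (Metric.closedBall x r)}
  have hbad : {x | ¬ ∃ θ : E n, ‖θ‖ = 1 ∧ ENNReal.ofReal c <
        limsup (fun r : ℝ => min (μ (X x r θ α)) (μ (X x r (-θ) α)) / μ (Metric.closedBall x r))
          (𝓝[>] (0 : ℝ))} ⊆ ⋃ k, A k := by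
    intro x hx
    rw [Set.mem_ofPred_eq] at hx
    push Not at hx
    have h1 : ∀ θ ∈ Θ, ∀ᶠ r in 𝓝[>] (0 : ℝ),
        min (μ (X x r θ α)) (μ (X x r (-θ) α)) / μ (Metric.closedBall x r) <
          ENNReal.ofReal (2 * c) := by
      intro θ hθ
      refine eventually_lt_of_limsup_lt (lt_of_le_of_lt (hx θ (hΘ1 θ hθ)) ?_)
      rw [ENNReal.ofReal_lt_ofReal_iff (by positivity)]
      linarith
    have h2 : ∀ᶠ r in 𝓝[>] (0 : ℝ), ∀ θ ∈ Θ,
        min (μ (X x r θ α)) (μ (X x r (-θ) α)) / μ (Metric.closedBall x r) <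
          ENNReal.ofReal (2 * c) := by
      rw [Filter.eventually_all_finset]
      exact h1
    rw [eventually_nhdsWithin_iff, Metric.eventually_nhds_iff] at h2
    obtain ⟨ε, hε, h2⟩ := h2
    obtain ⟨k, hk⟩ := exists_nat_one_div_lt hε
    refine mem_iUnion.2 ⟨k, fun θ hθ r hr0 hr1 => ?_⟩
    have h3 := h2 (y := r) (by rw [Real.dist_eq, sub_zero, abs_of_pos hr0]; linarith) hr0 θ hθ
    by_cases hz : μ (Metric.closedBall x r) = 0
    · have h4 : μ (X x r θ α) = 0 := measure_mono_null inter_subset_left hz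
      rw [h4]
      exact (min_le_left _ _).trans zero_le
    · exact (ENNReal.div_le_iff_le_mul (Or.inl hz) (Or.inl (measure_ne_top μ _))).1 h3.le
  rw [ae_iff]
  refine measure_mono_null hbad (measure_iUnion_null fun k => ?_)
  by_contra hne
  -- a density point with a doubling scale
  have hres : μ.restrict (A k) ≠ 0 := by
    rw [Ne, Measure.restrict_eq_zero]
    exact hne
  have hd := Besicovitch.ae_tendsto_measure_inter_div μ (A k)
  have hdb : ∀ᵐ x ∂(μ.restrict (A k)), ∀ δ : ℝ, 0 < δ → ∃ r : ℝ, 0 < r ∧ r < δ ∧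
      μ (Metric.closedBall x (3 * r)) ≤ ENNReal.ofReal C * μ (Metric.closedBall x r) :=
    ae_restrict_of_ae (doubling μ)
  have hnb : (ae (μ.restrict (A k))).NeBot := ae_neBot.2 hres
  obtain ⟨x0, hx0, hx1⟩ := (hd.and hdb).exists
  have hev : ∀ᶠ r in 𝓝[>] (0 : ℝ), (1 / 2 : ℝ≥0∞) <
      μ (A k ∩ Metric.closedBall x0 r) / μ (Metric.closedBall x0 r) :=
    hx0.eventually (lt_mem_nhds (by
      rw [one_div]; exact ENNReal.inv_lt_one.2 (by norm_num)))
  rw [eventually_nhdsWithin_iff, Metric.eventually_nhds_iff] at hev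
  obtain ⟨ε, hε, hev⟩ := hev
  obtain ⟨r, hr0, hr1, hr2⟩ := hx1 (min ε (1 / (2 * ((k : ℝ) + 1)))) (by positivity)
  have hrε : r < ε := lt_of_lt_of_le hr1 (min_le_left _ _)
  have hrk : 2 * r < 1 / ((k : ℝ) + 1) := by
    have h1 := lt_of_lt_of_le hr1 (min_le_right _ _)
    have h2 : 1 / (2 * ((k : ℝ) + 1)) = 1 / ((k : ℝ) + 1) / 2 := by field_simp
    rw [h2] at h1
    linarith
  have hdens := hev (y := r) (by rw [Real.dist_eq, sub_zero, abs_of_pos hr0]; exact hrε) hr0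
  set B := Metric.closedBall x0 r with hB
  have hb0 : μ B ≠ 0 := by
    intro h0
    have h1 : μ (A k ∩ B) = 0 := measure_mono_null inter_subset_right h0
    rw [h1, ENNReal.zero_div] at hdens
    exact not_lt_zero hdens
  have hbt : μ B ≠ ⊤ := measure_ne_top μ _
  set e : ℝ≥0∞ := ENNReal.ofReal (2 * c) * (ENNReal.ofReal C * μ B) with he
  have hsmall : μ (B ∩ A k) ≤ 2 ^ Θ.card * (Θ.card * e) := by
    refine ball_small (β := β) μ hna Θ hΘ B (A k) measurableSet_closedBall e ?_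
    intro y hy θ hθ
    have hsubX : ∀ θ' : E n, B ∩ H y θ' β ⊆ X y (2 * r) θ' α := by
      rintro θ' z ⟨hz, hzH⟩
      refine ⟨?_, hzH⟩
      rw [Metric.mem_closedBall]
      have h1 : dist z x0 ≤ r := hz
      have h2 : dist y x0 ≤ r := hy.1
      calc dist z y ≤ dist z x0 + dist x0 y := dist_triangle _ _ _
        _ ≤ r + r := by
            rw [dist_comm x0 y]
            exact add_le_add h1 h2
        _ = 2 * r := by ring
    have h3 := hy.2 θ hθ (2 * r) (by positivity) hrk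
    refine le_trans (min_le_min (measure_mono (hsubX θ)) (measure_mono (hsubX (-θ)))) ?_
    refine h3.trans ?_
    rw [he]
    refine mul_le_mul' le_rfl ?_
    refine le_trans (measure_mono ?_) hr2
    refine Metric.closedBall_subset_closedBall' ?_
    have h2 : dist y x0 ≤ r := hy.1
    linarith
  -- contradiction
  have hhalf : (1 / 2 : ℝ≥0∞) * μ B < μ (B ∩ A k) := by
    rw [inter_comm]
    exact (ENNReal.lt_div_iff_mul_lt (Or.inl hb0) (Or.inl hbt)).1 hdens
  have hlt := lt_of_lt_of_le hhalf hsmall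
  have hreal : (2 : ℝ≥0∞) ^ Θ.card * (Θ.card * e) ≤ (1 / 2 : ℝ≥0∞) * μ B := by
    have h1 : (2 : ℝ≥0∞) ^ Θ.card * (Θ.card * e) =
        ENNReal.ofReal (2 ^ Θ.card * N * (2 * c) * C) * μ B := by
      have e1 : ENNReal.ofReal (2 ^ Θ.card * N * (2 * c) * C) =
          ENNReal.ofReal (2 ^ Θ.card * N * (2 * c)) * ENNReal.ofReal C :=
        ENNReal.ofReal_mul (by positivity)
      have e2 : ENNReal.ofReal (2 ^ Θ.card * N * (2 * c)) =
          ENNReal.ofReal (2 ^ Θ.card * N) * ENNReal.ofReal (2 * c) :=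
        ENNReal.ofReal_mul (by positivity)
      have e3 : ENNReal.ofReal (2 ^ Θ.card * N) = ENNReal.ofReal (2 ^ Θ.card) * ENNReal.ofReal N :=
        ENNReal.ofReal_mul (by positivity)
      have e4 : ENNReal.ofReal (2 ^ Θ.card) = 2 ^ Θ.card := by
        rw [ENNReal.ofReal_pow (by norm_num), ENNReal.ofReal_ofNat]
      have e5 : ENNReal.ofReal N = Θ.card := by rw [hN, ENNReal.ofReal_natCast]
      rw [he, e1, e2, e3, e4, e5]
      ring
    have h2 : 2 ^ Θ.card * N * (2 * c) * C ≤ 1 / 2 := by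
      rw [hc]
      have h3 : 2 ^ Θ.card * N * (2 * (1 / (8 * 2 ^ Θ.card * (N + 1) * C))) * C =
          N / (N + 1) / 4 := by
        field_simp
        ring
      rw [h3]
      have h4 : N / (N + 1) ≤ 1 := by
        rw [div_le_one (by positivity)]; linarith
      linarith
    rw [h1]
    refine mul_le_mul' ?_ le_rfl
    refine (ENNReal.ofReal_le_ofReal h2).trans (le_of_eq ?_)
    rw [ENNReal.ofReal_div_of_pos (by norm_num)]
    norm_num
  exact absurd hlt (not_lt.2 hreal)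

end Pool.Agent.Results.MP_acc68d_an.TwoSidedCones
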